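import Mathlib
import Pool.Agent.Helper598.Parallel

set_option autoImplicit false
set_option linter.unusedSectionVars false

namespace Pool.Agent.Y332.PM

open Finset MvPolynomial Pool.Agent.Helper598.Parallel

section Rank

variable {V F κ : Type} [DecidableEq V] [DecidableEq F] [DecidableEq κ]
variable [Fintype V] [Fintype F] [Fintype κ] {K : Type} [Field K]

/-- Every set of vertices is partitioned into pieces for which the counting bound holds. -/
lemma exists_parts (n : F → κ → K) (hG : GenProp V n) (I : Finset (V × F)) (X : Finset V) :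
    ∃ P : Finset (Finset V), (∀ Y ∈ P, Y.Nonempty) ∧ (P : Set (Finset V)).PairwiseDisjoint id ∧
      P.sup id = X ∧
      (Fintype.card κ + 1) * X.card + ∑ Y ∈ P, (NX I Y).card
        ≤ Module.finrank K (W n I X) + (Fintype.card κ + 1) * P.card := by
  induction X using Finset.strongInduction with
  | H X ih =>
    rcases X.eq_empty_or_nonempty with rfl | hne
    · exact ⟨∅, by simp, by simp, by simp, by simp⟩
    by_cases ht : Tight n I X
    · refine ⟨{X}, by simpa using hne, by simp, by simp, ?_⟩
      have h1 := tight_bound n I X hne ht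
      simpa using h1
    · obtain ⟨X1, X2, h1, h2, hd, hu, hr⟩ := split_exists n hG I X ht
      have hss1 : X1 ⊂ X := by
        rw [← hu]
        refine Finset.ssubset_iff_subset_ne.2 ⟨Finset.subset_union_left, fun h => ?_⟩
        obtain ⟨y, hy⟩ := h2
        have : y ∈ X1 := by rw [h]; exact Finset.mem_union_right _ hy
        exact Finset.disjoint_left.1 hd this hy
      have hss2 : X2 ⊂ X := by
        rw [← hu]
        refine Finset.ssubset_iff_subset_ne.2 ⟨Finset.subset_union_right, fun h => ?_⟩
        obtain ⟨y, hy⟩ := h1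
        have : y ∈ X2 := by rw [h]; exact Finset.mem_union_left _ hy
        exact Finset.disjoint_left.1 hd hy this
      obtain ⟨P1, hn1, hp1, hs1, hb1⟩ := ih X1 hss1
      obtain ⟨P2, hn2, hp2, hs2, hb2⟩ := ih X2 hss2
      have hsub1 : ∀ Y ∈ P1, Y ⊆ X1 := by
        intro Y hY
        rw [← hs1]
        exact Finset.le_sup (f := id) hY
      have hsub2 : ∀ Y ∈ P2, Y ⊆ X2 := by
        intro Y hY
        rw [← hs2]
        exact Finset.le_sup (f := id) hY
      have hcross : ∀ Y ∈ P1, ∀ Z ∈ P2, Disjoint Y Z := fun Y hY Z hZ =>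
        Finset.disjoint_of_subset_left (hsub1 Y hY)
          (Finset.disjoint_of_subset_right (hsub2 Z hZ) hd)
      have hdP : Disjoint P1 P2 := by
        rw [Finset.disjoint_left]
        intro Y hY1 hY2
        obtain ⟨y, hy⟩ := hn1 Y hY1
        exact Finset.disjoint_left.1 (hcross Y hY1 Y hY2) hy hy
      refine ⟨P1 ∪ P2, ?_, ?_, ?_, ?_⟩
      · intro Y hY
        rcases Finset.mem_union.1 hY with h | h
        · exact hn1 Y h
        · exact hn2 Y h
      · intro Y hY Z hZ hYZ
        rcases Finset.mem_union.1 (Finset.mem_coe.1 hY) with h | h <;>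
          rcases Finset.mem_union.1 (Finset.mem_coe.1 hZ) with h' | h'
        · exact hp1 h h' hYZ
        · exact hcross Y h Z h'
        · exact (hcross Z h' Y h).symm
        · exact hp2 h h' hYZ
      · rw [Finset.sup_union, hs1, hs2]
        exact hu
      · rw [Finset.sum_union hdP, Finset.card_union_of_disjoint hdP, hr]
        have hcard : X.card = X1.card + X2.card := by
          rw [← hu, Finset.card_union_of_disjoint hd]
        rw [hcard, mul_add, mul_add]
        omega

/-- upper bound for one piece -/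
lemma piece_upper (n : F → κ → K) (I : Finset (V × F)) (X : Finset V) (hX : X.Nonempty) :
    Module.finrank K (W n I X) + (Fintype.card κ + 1)
      ≤ (Fintype.card κ + 1) * X.card + (NX I X).card := by
  classical
  obtain ⟨x0, hx0⟩ := hX
  set S : Finset (F ⊕ (V × Option κ)) :=
    (NX I X).map ⟨Sum.inl, Sum.inl_injective⟩ ∪
      (X ×ˢ (Finset.univ : Finset (Option κ))).map ⟨Sum.inr, Sum.inr_injective⟩ with hS
  have hScard : S.card = (NX I X).card + X.card * (Fintype.card κ + 1) := by
    rw [hS, Finset.card_union_of_disjoint]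
    · simp [Finset.card_product, Fintype.card_option]
    · rw [Finset.disjoint_left]
      intro c hc1 hc2
      simp only [Finset.mem_map, Function.Embedding.coeFn_mk] at hc1 hc2
      obtain ⟨j, _, rfl⟩ := hc1
      obtain ⟨q, _, hq⟩ := hc2
      cases hq
  set S0 : Finset (F ⊕ (V × Option κ)) :=
    (({x0} : Finset V) ×ˢ (Finset.univ : Finset (Option κ))).map
      ⟨Sum.inr, Sum.inr_injective⟩ with hS0
  have hS0card : S0.card = Fintype.card κ + 1 := by
    rw [hS0]; simp [Finset.card_product, Fintype.card_option]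
  set U := Submodule.span K (Set.range (fun c : S0 => us K (c : F ⊕ (V × Option κ)))) with hU
  set T := Submodule.span K (Set.range (fun c : S => us K (c : F ⊕ (V × Option κ)))) with hT
  have husT : ∀ c ∈ S, us K c ∈ T := fun c hc => Submodule.subset_span ⟨⟨c, hc⟩, rfl⟩
  have hUT : U ≤ T := by
    rw [hU, Submodule.span_le]
    rintro _ ⟨⟨c, hc⟩, rfl⟩
    apply husT
    simp only [hS0, Finset.mem_map, Function.Embedding.coeFn_mk, Finset.mem_product,
      Finset.mem_singleton] at hc
    obtain ⟨q, ⟨hq1, hq2⟩, rfl⟩ := hc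
    rw [hS, Finset.mem_union]
    right
    simp only [Finset.mem_map, Function.Embedding.coeFn_mk, Finset.mem_product]
    exact ⟨q, ⟨by rw [hq1]; exact hx0, hq2⟩, rfl⟩
  have hWT : W n I X ≤ T := by
    unfold W
    rw [Submodule.span_le]
    rintro _ ⟨e, he, rfl⟩
    have he' : e ∈ I ∧ e.1 ∈ X := by
      simpa [IX] using he
    have hinr : ∀ c : Option κ, (Sum.inr (e.1, c) : F ⊕ (V × Option κ)) ∈ S := by
      intro c
      rw [hS, Finset.mem_union]
      right
      simp only [Finset.mem_map, Function.Embedding.coeFn_mk, Finset.mem_product]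
      exact ⟨(e.1, c), ⟨he'.2, Finset.mem_univ _⟩, rfl⟩
    have hinl : (Sum.inl e.2 : F ⊕ (V × Option κ)) ∈ S := by
      rw [hS, Finset.mem_union]
      left
      simp only [Finset.mem_map, Function.Embedding.coeFn_mk]
      refine ⟨e.2, ?_, rfl⟩
      simp only [NX, Finset.mem_image]
      exact ⟨e, he, rfl⟩
    rw [SetLike.mem_coe]
    beta_reduce
    rw [row_expand]
    refine Submodule.add_mem _ (Submodule.add_mem _ (husT _ hinl) (husT _ (hinr none))) ?_
    exact Submodule.sum_mem _ fun c _ => Submodule.smul_mem _ _ (husT _ (hinr (some c)))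
  -- the trivial solutions
  let Φ : (F ⊕ (V × Option κ) → K) →ₗ[K] (Option κ → K) :=
    { toFun := fun v c => ∑ i : V, v (Sum.inr (i, c)) - ∑ j : F, (c.elim 1 (n j)) * v (Sum.inl j)
      map_add' := by
        intro v w
        funext c
        simp only [Pi.add_apply, mul_add, Finset.sum_add_distrib]
        ring
      map_smul' := by
        intro r v
        funext c
        simp only [Pi.smul_apply, smul_eq_mul, RingHom.id_apply, mul_sub, Finset.mul_sum]
        congr 1
        refine Finset.sum_congr rfl fun j _ => by ring }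
  have hker : W n I X ≤ LinearMap.ker Φ := by
    unfold W
    rw [Submodule.span_le]
    rintro _ ⟨e, _, rfl⟩
    rw [SetLike.mem_coe, LinearMap.mem_ker]
    funext c
    simp [Φ]
  have hU0 : ∀ w ∈ U, (∀ j : F, w (Sum.inl j) = 0) ∧ ∀ i : V, i ≠ x0 → ∀ c, w (Sum.inr (i, c)) = 0 := by
    intro w hw
    rw [hU] at hw
    induction hw using Submodule.span_induction with
    | mem w hw =>
      obtain ⟨⟨c, hc⟩, rfl⟩ := hw
      simp only [hS0, Finset.mem_map, Function.Embedding.coeFn_mk, Finset.mem_product,
        Finset.mem_singleton] at hc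
      obtain ⟨q, ⟨hq1, _⟩, rfl⟩ := hc
      refine ⟨fun j => by simp [us], fun i hi c => ?_⟩
      have : (Sum.inr (i, c) : F ⊕ (V × Option κ)) ≠ Sum.inr q := by
        intro h
        apply hi
        rw [← hq1, ← Sum.inr_injective h]
      simp [us, this]
    | zero => simp
    | add u v _ _ hu hv =>
      refine ⟨fun j => by rw [Pi.add_apply, hu.1, hv.1, add_zero], fun i hi c => ?_⟩
      rw [Pi.add_apply, hu.2 i hi, hv.2 i hi, add_zero]
    | smul a u _ hu =>
      refine ⟨fun j => by rw [Pi.smul_apply, hu.1, smul_zero], fun i hi c => ?_⟩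
      rw [Pi.smul_apply, hu.2 i hi, smul_zero]
  have hdis : W n I X ⊓ U = ⊥ := by
    rw [Submodule.eq_bot_iff]
    intro w hw
    obtain ⟨hw1, hw2⟩ := Submodule.mem_inf.1 hw
    obtain ⟨h1, h2⟩ := hU0 w hw2
    have h3 : Φ w = 0 := hker hw1
    funext c
    rcases c with j | ⟨i, c⟩
    · exact h1 j
    · by_cases hi : i = x0
      · subst hi
        have h4 := congrFun h3 c
        simp only [Φ, LinearMap.coe_mk, AddHom.coe_mk, Pi.zero_apply, h1, mul_zero,
          Finset.sum_const_zero, sub_zero] at h4
        rw [Finset.sum_eq_single_of_mem i (Finset.mem_univ _)] at h4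
        · exact h4
        · intro k _ hk
          exact h2 k hk c
      · exact h2 i hi c
  have h1 := Submodule.finrank_sup_add_finrank_inf_eq (W n I X) U
  rw [hdis] at h1
  have h2 : Module.finrank K (W n I X ⊔ U : Submodule K _) ≤ Module.finrank K T :=
    Submodule.finrank_mono (sup_le hWT hUT)
  have hTc : Module.finrank K T = (NX I X).card + X.card * (Fintype.card κ + 1) := by
    rw [hT, finrank_span_us, hScard]
  have hUc : Module.finrank K U = Fintype.card κ + 1 := by
    rw [hU, finrank_span_us, hS0card]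
  have h3 : X.card * (Fintype.card κ + 1) = (Fintype.card κ + 1) * X.card := mul_comm _ _
  rw [hTc] at h2
  rw [hUc, finrank_bot] at h1
  omega

/-- upper bound from a family of disjoint pieces -/
lemma parts_upper (n : F → κ → K) (I : Finset (V × F)) (P : Finset (Finset V))
    (hne : ∀ Y ∈ P, Y.Nonempty) (hd : (P : Set (Finset V)).PairwiseDisjoint id) :
    Module.finrank K (W n I (P.sup id)) + (Fintype.card κ + 1) * P.card
      ≤ (Fintype.card κ + 1) * (P.sup id).card + ∑ Y ∈ P, (NX I Y).card := by
  induction P using Finset.induction_on with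
  | empty =>
    have h : W n I (∅ : Finset V) = ⊥ := by
      simp [W, IX]
    simp [h]
  | insert Y P hY ih =>
    have ih' := ih (fun Z hZ => hne Z (Finset.mem_insert_of_mem hZ))
      (hd.subset (by simp [Finset.coe_insert]))
    have h1 := piece_upper n I Y (hne Y (Finset.mem_insert_self _ _))
    have hdis : Disjoint Y (P.sup id) := by
      rw [Finset.disjoint_sup_right]
      intro Z hZ
      apply hd (Finset.mem_coe.2 (Finset.mem_insert_self _ _))
        (Finset.mem_coe.2 (Finset.mem_insert_of_mem hZ))
      rintro rfl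
      exact hY hZ
    rw [Finset.sup_insert, Finset.sum_insert hY, Finset.card_insert_of_notMem hY]
    change Module.finrank K (W n I (Y ∪ P.sup id)) + _ ≤ _ * (Y ∪ P.sup id).card + _
    rw [W_union, Finset.card_union_of_disjoint hdis]
    have h2 := Submodule.finrank_add_le_finrank_add_finrank (W n I Y) (W n I (P.sup id))
    rw [mul_add, mul_add]
    omega

end Rank

section Transfer

variable {V F κ : Type} [DecidableEq V] [DecidableEq F] [DecidableEq κ]
variable [Fintype V] [Fintype F] [Fintype κ]

lemma W_univ {K : Type} [Field K] (n : F → κ → K) (I : Finset (V × F)) :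
    W n I Finset.univ = Submodule.span K ((fun e => row n e) '' (I : Set (V × F))) := by
  unfold W
  congr 2
  ext e
  simp [IX]

/-- The rank at algebraically independent normals is at least the generic rank. -/
lemma rank_ge (I : Finset (V × F)) (a : F → κ → ℝ)
    (ha : AlgebraicIndependent ℚ (fun q : F × κ => a q.1 q.2)) :
    Module.finrank (QR F κ ℚ) (W (gq F κ ℚ) I Finset.univ) ≤
      Module.finrank ℝ (Submodule.span ℝ ((fun e => row a e) '' (I : Set (V × F)))) := by
  classical
  obtain ⟨ι, g, hg, hspan, hli⟩ := exists_linearIndependent' (QR F κ ℚ)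
    (fun i : I => row (gq F κ ℚ) (i : V × F))
  have : Finite ι := Finite.of_injective g hg
  have : Fintype ι := Fintype.ofFinite ι
  obtain ⟨b, hb, hbf⟩ := transfer ℚ (fun i : ι => ((g i : I) : V × F)) hli
  have hb' : (MvPolynomial.aeval (fun q : F × κ => a q.1 q.2) : MvPolynomial (F × κ) ℚ →ₐ[ℚ] ℝ) b ≠ 0 := by
    intro h0
    apply hb
    have hinj : Function.Injective (MvPolynomial.aeval (fun q : F × κ => a q.1 q.2) :
      MvPolynomial (F × κ) ℚ →ₐ[ℚ] ℝ) := ha
    apply hinj
    rw [h0, map_zero]
  have hliL := hbf ℝ (MvPolynomial.aeval (fun q : F × κ => a q.1 q.2) :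
    MvPolynomial (F × κ) ℚ →ₐ[ℚ] ℝ).toRingHom hb'
  have hx2 : (fun (j : F) (c : κ) => (MvPolynomial.aeval (fun q : F × κ => a q.1 q.2) :
      MvPolynomial (F × κ) ℚ →ₐ[ℚ] ℝ).toRingHom (MvPolynomial.X (j, c))) = a := by
    funext j c
    change (MvPolynomial.aeval (fun q : F × κ => a q.1 q.2) :
      MvPolynomial (F × κ) ℚ →ₐ[ℚ] ℝ) (MvPolynomial.X (j, c)) = a j c
    rw [MvPolynomial.aeval_X]
  rw [hx2] at hliL
  have hW : W (gq F κ ℚ) I Finset.univ
      = Submodule.span (QR F κ ℚ) (Set.range ((fun i : I => row (gq F κ ℚ) (i : V × F)) ∘ g)) := by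
    rw [hspan, W_univ]
    congr 1
    ext w
    simp
  have h1 : Module.finrank (QR F κ ℚ) (W (gq F κ ℚ) I Finset.univ) = Fintype.card ι := by
    rw [hW]
    exact finrank_span_eq_card hli
  rw [h1, ← finrank_span_eq_card hliL]
  apply Submodule.finrank_mono
  apply Submodule.span_mono
  rintro _ ⟨i, rfl⟩
  exact ⟨_, (g i).2, rfl⟩

/-- The rank formula, upper bound: all normals. -/
theorem formula_le {K : Type} [Field K] (n : F → κ → K) (I : Finset (V × F))
    (P : Finpartition (Finset.univ : Finset V)) :
    Module.finrank K (Submodule.span K ((fun e => row n e) '' (I : Set (V × F))))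
        + (Fintype.card κ + 1) * P.parts.card
      ≤ (Fintype.card κ + 1) * Fintype.card V + ∑ Y ∈ P.parts, (NX I Y).card := by
  have h := parts_upper n I P.parts (fun Y hY => P.nonempty_of_mem_parts hY) P.disjoint
  rw [P.sup_parts, W_univ, Finset.card_univ] at h
  exact h

/-- The rank formula, lower bound: algebraically independent normals. -/
theorem formula_ge (I : Finset (V × F)) (a : F → κ → ℝ)
    (ha : AlgebraicIndependent ℚ (fun q : F × κ => a q.1 q.2)) :
    ∃ P : Finpartition (Finset.univ : Finset V),
      (Fintype.card κ + 1) * Fintype.card V + ∑ Y ∈ P.parts, (NX I Y).card ≤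
      Module.finrank ℝ (Submodule.span ℝ ((fun e => row a e) '' (I : Set (V × F))))
        + (Fintype.card κ + 1) * P.parts.card := by
  obtain ⟨P, hne, hd, hs, hb⟩ := exists_parts (gq F κ ℚ) (genProp_gq ℚ) I (Finset.univ : Finset V)
  refine ⟨⟨P, Finset.supIndep_iff_pairwiseDisjoint.2 hd, hs, ?_⟩, ?_⟩
  · intro h
    exact Finset.not_nonempty_empty (hne _ h)
  · have h := rank_ge I a ha
    rw [Finset.card_univ] at hb
    change _ + ∑ Y ∈ P, _ ≤ _ + _ * P.card
    omega

end Transfer

end Pool.Agent.Y332.PM
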