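import Mathlib
import Pool.Agent.Y332.PM.Rank

set_option autoImplicit false
set_option linter.unusedSectionVars false

namespace Pool.Agent.Y332.PM

open Finset Pool.Agent.Helper598.Parallel

section Count

variable {V F : Type} [DecidableEq V] [DecidableEq F] [Fintype V] [Fintype F]

lemma mem_NX {I : Finset (V × F)} {X : Finset V} {j : F} :
    j ∈ NX I X ↔ ∃ v ∈ X, (v, j) ∈ I := by
  simp only [NX, IX, Finset.mem_image, Finset.mem_filter]
  constructor
  · rintro ⟨e, ⟨he, hx⟩, rfl⟩
    exact ⟨e.1, hx, he⟩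
  · rintro ⟨v, hv, h⟩
    exact ⟨(v, j), ⟨h, hv⟩, rfl⟩

/-- Double counting over the parts of a partition with at least two parts. -/
lemma count_parts (I : Finset (V × F)) (P : Finpartition (Finset.univ : Finset V)) (c : ℕ)
    (h2 : 2 ≤ P.parts.card) (hF : ∀ j : F, ∃ v, (v, j) ∈ I)
    (H : ∀ X : Finset V, X.Nonempty → X ≠ Finset.univ →
      2 * c ≤ (NX I X ∩ NX I Xᶜ).card) :
    Fintype.card F + c * P.parts.card ≤ ∑ Y ∈ P.parts, (NX I Y).card := by
  classical
  have hne : ∀ Y ∈ P.parts, Y ≠ Finset.univ := by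
    rintro Y hY rfl
    have hsub : P.parts ⊆ {Finset.univ} := by
      intro Z hZ
      rw [Finset.mem_singleton]
      by_contra hne
      have hd := P.disjoint (Finset.mem_coe.2 hZ) (Finset.mem_coe.2 hY) hne
      obtain ⟨z, hz⟩ := P.nonempty_of_mem_parts hZ
      exact Finset.disjoint_left.1 hd hz (Finset.mem_univ z)
    have := Finset.card_le_card hsub
    simp at this
    omega
  have h1 : 2 * c * P.parts.card ≤ ∑ Y ∈ P.parts, (NX I Y ∩ NX I Yᶜ).card := by
    rw [mul_comm, ← smul_eq_mul]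
    exact Finset.card_nsmul_le_sum _ _ _ fun Y hY =>
      H Y (P.nonempty_of_mem_parts hY) (hne Y hY)
  -- counting by faces
  have hA : ∑ Y ∈ P.parts, (NX I Y).card =
      ∑ j : F, (P.parts.filter (fun Y => j ∈ NX I Y)).card := by
    have h : ∀ Y ∈ P.parts, (NX I Y).card = ∑ j : F, if j ∈ NX I Y then 1 else 0 := by
      intro Y _
      rw [Finset.sum_boole]
      simp
    rw [Finset.sum_congr rfl h, Finset.sum_comm]
    apply Finset.sum_congr rfl
    intro j _
    rw [Finset.sum_boole]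
    simp
  have hB : ∑ Y ∈ P.parts, (NX I Y ∩ NX I Yᶜ).card =
      ∑ j : F, (P.parts.filter (fun Y => j ∈ NX I Y ∩ NX I Yᶜ)).card := by
    have h : ∀ Y ∈ P.parts, (NX I Y ∩ NX I Yᶜ).card =
        ∑ j : F, if j ∈ NX I Y ∩ NX I Yᶜ then 1 else 0 := by
      intro Y _
      rw [Finset.sum_boole, Nat.cast_id]
      congr 1
      ext j
      simp
    rw [Finset.sum_congr rfl h, Finset.sum_comm]
    apply Finset.sum_congr rfl
    intro j _
    rw [Finset.sum_boole]
    simp
  have hj : ∀ j : F, (P.parts.filter (fun Y => j ∈ NX I Y ∩ NX I Yᶜ)).card + 2 ≤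
      2 * (P.parts.filter (fun Y => j ∈ NX I Y)).card := by
    intro j
    have hle : (P.parts.filter (fun Y => j ∈ NX I Y ∩ NX I Yᶜ)).card ≤
        (P.parts.filter (fun Y => j ∈ NX I Y)).card := by
      apply Finset.card_le_card
      intro Y hY
      rw [Finset.mem_filter] at hY ⊢
      exact ⟨hY.1, (Finset.mem_inter.1 hY.2).1⟩
    obtain ⟨v, hv⟩ := hF j
    obtain ⟨Y0, hY0, hvY⟩ := P.exists_mem (Finset.mem_univ v)
    have hmem0 : Y0 ∈ P.parts.filter (fun Y => j ∈ NX I Y) := by
      rw [Finset.mem_filter]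
      exact ⟨hY0, mem_NX.2 ⟨v, hvY, hv⟩⟩
    by_cases h1 : (P.parts.filter (fun Y => j ∈ NX I Y)).card = 1
    · have h0 : P.parts.filter (fun Y => j ∈ NX I Y ∩ NX I Yᶜ) = ∅ := by
        rw [Finset.filter_eq_empty_iff]
        intro Y hY hjY
        rw [Finset.mem_inter] at hjY
        obtain ⟨w, hw, hwI⟩ := mem_NX.1 hjY.2
        obtain ⟨Z, hZ, hwZ⟩ := P.exists_mem (Finset.mem_univ w)
        have hYm : Y ∈ P.parts.filter (fun Y => j ∈ NX I Y) := Finset.mem_filter.2 ⟨hY, hjY.1⟩
        have hZm : Z ∈ P.parts.filter (fun Y => j ∈ NX I Y) :=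
          Finset.mem_filter.2 ⟨hZ, mem_NX.2 ⟨w, hwZ, hwI⟩⟩
        obtain ⟨Q, hQ⟩ := Finset.card_eq_one.1 h1
        rw [hQ, Finset.mem_singleton] at hYm hZm
        rw [hZm, ← hYm] at hwZ
        exact (Finset.mem_compl.1 hw) hwZ
      rw [h0, h1]
      simp
    · have hpos : 0 < (P.parts.filter (fun Y => j ∈ NX I Y)).card := Finset.card_pos.2 ⟨_, hmem0⟩
      omega
  have h3 : ∑ j : F, ((P.parts.filter (fun Y => j ∈ NX I Y ∩ NX I Yᶜ)).card + 2) ≤
      ∑ j : F, 2 * (P.parts.filter (fun Y => j ∈ NX I Y)).card :=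
    Finset.sum_le_sum fun j _ => hj j
  rw [Finset.sum_add_distrib, ← hB, ← Finset.mul_sum, ← hA] at h3
  simp only [Finset.sum_const, Finset.card_univ, smul_eq_mul] at h3
  have h4 : 2 * c * P.parts.card = 2 * (c * P.parts.card) := by ring
  omega

/-- Deleting a set of pairs from the incidences. -/
lemma sum_sdiff (I D : Finset (V × F)) (P : Finpartition (Finset.univ : Finset V)) :
    ∑ Y ∈ P.parts, (NX I Y).card ≤ ∑ Y ∈ P.parts, (NX (I \ D) Y).card + D.card := by
  classical
  have h1 : ∀ Y ∈ P.parts, (NX I Y).card ≤ (NX (I \ D) Y).card +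
      (D.filter (fun e => e.1 ∈ Y)).card := by
    intro Y _
    have hsub : NX I Y ⊆ NX (I \ D) Y ∪ (D.filter (fun e => e.1 ∈ Y)).image Prod.snd := by
      intro j hj
      obtain ⟨v, hv, hI⟩ := mem_NX.1 hj
      rw [Finset.mem_union]
      by_cases hD : (v, j) ∈ D
      · right
        rw [Finset.mem_image]
        exact ⟨(v, j), Finset.mem_filter.2 ⟨hD, hv⟩, rfl⟩
      · left
        exact mem_NX.2 ⟨v, hv, Finset.mem_sdiff.2 ⟨hI, hD⟩⟩
    exact (Finset.card_le_card hsub).trans ((Finset.card_union_le _ _).trans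
      (Nat.add_le_add_left Finset.card_image_le _))
  have h2 : ∑ Y ∈ P.parts, (D.filter (fun e => e.1 ∈ Y)).card ≤ D.card := by
    rw [← Finset.card_biUnion]
    · apply Finset.card_le_card
      intro e he
      rw [Finset.mem_biUnion] at he
      obtain ⟨Y, _, hY⟩ := he
      exact (Finset.mem_filter.1 hY).1
    · intro Y hY Z hZ hYZ
      rw [Function.onFun, Finset.disjoint_left]
      intro e heY heZ
      exact Finset.disjoint_left.1 (P.disjoint (Finset.mem_coe.2 hY) (Finset.mem_coe.2 hZ) hYZ)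
        (Finset.mem_filter.1 heY).2 (Finset.mem_filter.1 heZ).2
  calc ∑ Y ∈ P.parts, (NX I Y).card
      ≤ ∑ Y ∈ P.parts, ((NX (I \ D) Y).card + (D.filter (fun e => e.1 ∈ Y)).card) :=
        Finset.sum_le_sum h1
    _ = ∑ Y ∈ P.parts, (NX (I \ D) Y).card + ∑ Y ∈ P.parts, (D.filter (fun e => e.1 ∈ Y)).card :=
        Finset.sum_add_distrib
    _ ≤ _ := Nat.add_le_add_left h2 _

/-- Full rank from many crossing faces, after deleting a few incidences. -/
theorem full_rank {κ : Type} [DecidableEq κ] [Fintype κ] [Nonempty V] (I D : Finset (V × F))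
    (hD : D.card ≤ Fintype.card κ + 1)
    (H : ∀ X : Finset V, X.Nonempty → X ≠ Finset.univ →
      2 * (Fintype.card κ + 1) ≤ (NX I X ∩ NX I Xᶜ).card)
    (hF : ∀ j : F, ∃ v, (v, j) ∈ I \ D) (a : F → κ → ℝ)
    (ha : AlgebraicIndependent ℚ (fun q : F × κ => a q.1 q.2)) :
    (Fintype.card κ + 1) * Fintype.card V + Fintype.card F ≤
      Module.finrank ℝ (Submodule.span ℝ ((fun e => row a e) '' ((I \ D : Finset (V × F)) :
        Set (V × F)))) + (Fintype.card κ + 1) := by
  classical
  obtain ⟨P, hP⟩ := formula_ge (I \ D) a ha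
  have hpos : 0 < P.parts.card := by
    obtain ⟨v⟩ := ‹Nonempty V›
    obtain ⟨Y, hY, _⟩ := P.exists_mem (Finset.mem_univ v)
    exact Finset.card_pos.2 ⟨Y, hY⟩
  by_cases h1 : P.parts.card = 1
  · obtain ⟨Y, hY⟩ := Finset.card_eq_one.1 h1
    have hYu : NX (I \ D) Y = Finset.univ := by
      rw [Finset.eq_univ_iff_forall]
      intro j
      obtain ⟨v, hv⟩ := hF j
      obtain ⟨Z, hZ, hvZ⟩ := P.exists_mem (Finset.mem_univ v)
      rw [hY, Finset.mem_singleton] at hZ
      rw [hZ] at hvZ
      exact mem_NX.2 ⟨v, hvZ, hv⟩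
    rw [hY, Finset.sum_singleton, Finset.card_singleton, hYu, Finset.card_univ, mul_one] at hP
    exact hP
  · have h2 := count_parts I P (Fintype.card κ + 1) (by omega)
      (fun j => by
        obtain ⟨v, hv⟩ := hF j
        exact ⟨v, (Finset.mem_sdiff.1 hv).1⟩) H
    have h3 := sum_sdiff I D P
    omega

end Count

section Graph

variable {V F : Type} [DecidableEq V] [DecidableEq F] [Fintype V] [Fintype F]

/-- In a `k`-connected incidence graph every face has at least `k` vertices. -/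
lemma face_degree (I : Finset (V × F)) (k : ℕ) (hcard : k < Fintype.card V + Fintype.card F)
    (h : ∀ X : Finset (V ⊕ F), X.card < k → ((IG I).induce ((↑X : Set (V ⊕ F))ᶜ)).Connected)
    (j : F) : k ≤ (Finset.univ.filter (fun v : V => (v, j) ∈ I)).card := by
  classical
  by_contra hlt
  push Not at hlt
  set N := Finset.univ.filter (fun v : V => (v, j) ∈ I) with hN
  set S : Finset (V ⊕ F) := N.map ⟨Sum.inl, Sum.inl_injective⟩ with hS
  have hScard : S.card < k := by rw [hS, Finset.card_map]; exact hlt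
  have hjS : (Sum.inr j : V ⊕ F) ∉ S := by simp [hS]
  obtain ⟨b, hb, hbj⟩ : ∃ b : V ⊕ F, b ∉ S ∧ b ≠ Sum.inr j := by
    by_contra hall
    push Not at hall
    have hsub : (Finset.univ : Finset (V ⊕ F)) ⊆ insert (Sum.inr j) S := by
      intro b _
      rw [Finset.mem_insert]
      by_cases hbS : b ∈ S
      · exact Or.inr hbS
      · exact Or.inl (hall b hbS)
    have h1 := Finset.card_le_card hsub
    rw [Finset.card_univ, Fintype.card_sum, Finset.card_insert_of_notMem hjS] at h1
    omega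
  have := conn_cut (IG I) S (h S hScard) (fun a => a = Sum.inr j) (by
    rintro a b _ hb hadj rfl
    simp only [IG, SimpleGraph.fromRel_adj] at hadj
    obtain ⟨_, ⟨e, he, h1, h2⟩ | ⟨e, he, h1, h2⟩⟩ := hadj
    · cases h1
    · exfalso
      apply hb
      rw [h1, hS]
      simp only [Finset.mem_map, Function.Embedding.coeFn_mk]
      refine ⟨e.1, ?_, rfl⟩
      rw [hN, Finset.mem_filter]
      refine ⟨Finset.mem_univ _, ?_⟩
      rw [Sum.inr_injective h2]
      exact he) (Sum.inr j) b hjS hb rfl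
  exact hbj this

/-- The case of a vertex-connected incidence graph. -/
theorem full_rank_conn {κ : Type} [DecidableEq κ] [Fintype κ] (I D : Finset (V × F))
    (hD : D.card ≤ Fintype.card κ + 1)
    (hcard : 2 * (Fintype.card κ + 1) < Fintype.card V + Fintype.card F)
    (h : ∀ X : Finset (V ⊕ F), X.card < 2 * (Fintype.card κ + 1) →
      ((IG I).induce ((↑X : Set (V ⊕ F))ᶜ)).Connected) (a : F → κ → ℝ)
    (ha : AlgebraicIndependent ℚ (fun q : F × κ => a q.1 q.2)) :
    (Fintype.card κ + 1) * Fintype.card V + Fintype.card F ≤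
      Module.finrank ℝ (Submodule.span ℝ ((fun e => row a e) '' ((I \ D : Finset (V × F)) :
        Set (V × F)))) + (Fintype.card κ + 1) := by
  classical
  have hV : Nonempty V := conn_nonempty_V I (by omega) (h ∅ (by simp))
  refine full_rank I D hD (fun X hX hX' => conn_H I _ h X hX hX') ?_ a ha
  intro j
  by_contra hno
  push Not at hno
  have h1 := face_degree I _ hcard h j
  have hsub : (Finset.univ.filter (fun v : V => (v, j) ∈ I)).map
      ⟨fun v => (v, j), fun v w hvw => (Prod.mk.inj hvw).1⟩ ⊆ D := by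
    intro e he
    simp only [Finset.mem_map, Finset.mem_filter, Finset.mem_univ, true_and,
      Function.Embedding.coeFn_mk] at he
    obtain ⟨v, hv, rfl⟩ := he
    by_contra hvD
    exact hno v (Finset.mem_sdiff.2 ⟨hv, hvD⟩)
  have h2 := Finset.card_le_card hsub
  rw [Finset.card_map] at h2
  omega

end Graph

end Pool.Agent.Y332.PM
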