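import Mathlib
import Pool.Agent.Y332.PM.Conn

set_option autoImplicit false
set_option linter.unusedSectionVars false

namespace Pool.Agent.Y332.PM

open Finset Pool.Agent.Helper598.Parallel

lemma exists_notMem_of_card {α W : Type} [Fintype α] [DecidableEq W] (f : α → W)
    (hf : Function.Injective f) (S : Finset W) (h : S.card < Fintype.card α) : ∃ x, f x ∉ S := by
  by_contra hall
  push Not at hall
  have h1 : (Finset.univ.map ⟨f, hf⟩) ⊆ S := by
    intro y hy
    simp only [Finset.mem_map, Finset.mem_univ, true_and, Function.Embedding.coeFn_mk] at hy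
    obtain ⟨x, rfl⟩ := hy
    exact hall x
  have h2 := Finset.card_le_card h1
  rw [Finset.card_map, Finset.card_univ] at h2
  omega

section Graph

variable {V F : Type} [DecidableEq V] [DecidableEq F] [Fintype V] [Fintype F]

lemma IG_adj {I : Finset (V × F)} {v : V} {j : F} (h : (v, j) ∈ I) :
    (IG I).Adj (Sum.inl v) (Sum.inr j) := by
  simp only [IG, SimpleGraph.fromRel_adj]
  exact ⟨by simp, Or.inl ⟨(v, j), h, rfl, rfl⟩⟩

lemma reach_step {W : Type} (G : SimpleGraph W) (T : Set W) {a b : W} (ha : a ∈ T) (hb : b ∈ T)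
    (h : G.Adj a b) : (G.induce T).Reachable ⟨a, ha⟩ ⟨b, hb⟩ :=
  SimpleGraph.Adj.reachable (by simpa using h)

/-- with many faces the complete incidence structure has full rank -/
lemma univ_rank {κ : Type} [DecidableEq κ] [Fintype κ] [Nonempty V]
    (hF : 2 * (Fintype.card κ + 1) ≤ Fintype.card F) (a : F → κ → ℝ)
    (ha : AlgebraicIndependent ℚ (fun q : F × κ => a q.1 q.2)) :
    (Fintype.card κ + 1) * Fintype.card V + Fintype.card F ≤
      Module.finrank ℝ (Submodule.span ℝ ((fun e => row a e) '' (Set.univ : Set (V × F)))) +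
        (Fintype.card κ + 1) := by
  have hN : ∀ X : Finset V, X.Nonempty → NX (Finset.univ : Finset (V × F)) X = Finset.univ := by
    rintro X ⟨x, hx⟩
    rw [Finset.eq_univ_iff_forall]
    intro j
    exact mem_NX.2 ⟨x, hx, Finset.mem_univ _⟩
  have h := full_rank (κ := κ) (Finset.univ : Finset (V × F)) ∅ (by simp)
    (fun X hX hX' => by
      have hX'' : Xᶜ.Nonempty := by
        rw [Finset.nonempty_iff_ne_empty]
        intro h
        exact hX' (Finset.compl_eq_empty_iff X |>.1 h)
      rw [hN X hX, hN Xᶜ hX'', Finset.inter_self, Finset.card_univ]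
      exact hF)
    (fun j => by
      obtain ⟨v⟩ := ‹Nonempty V›
      exact ⟨v, by simp⟩) a ha
  rw [Finset.sdiff_empty, Finset.coe_univ] at h
  exact h

end Graph

/-! ### the number of deletions -/

section Deletions

variable (n : ℕ)

/-- the deleted pairs -/
def del : Finset (Fin (2 * (n + 1)) × Fin (2 * (n + 1))) :=
  (Finset.univ.filter (fun j : Fin (2 * (n + 1)) => j.val ≤ n + 1)).map
    ⟨fun j => (⟨0, by omega⟩, j), fun _ _ h => (Prod.mk.inj h).2⟩

lemma card_filter_le (N k : ℕ) (h : k < N) :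
    (Finset.univ.filter (fun j : Fin N => j.val ≤ k)).card = k + 1 := by
  have h1 : (Finset.univ.filter (fun j : Fin N => j.val ≤ k)) =
      Finset.univ.filter (fun j : Fin N => j.val < k + 1) := by
    ext j; simp
  rw [h1, Fin.card_filter_val_lt]
  omega

lemma card_del (hn : 1 ≤ n) : (del n).card = n + 2 := by
  rw [del, Finset.card_map, card_filter_le]
  omega

lemma complete_conn (S : Finset (Fin (2 * (n + 1)) ⊕ Fin (2 * (n + 1))))
    (hS : S.card < 2 * (n + 1)) :
    ((IG (Finset.univ : Finset (Fin (2 * (n + 1)) × Fin (2 * (n + 1))))).induce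
      ((↑S : Set (Fin (2 * (n + 1)) ⊕ Fin (2 * (n + 1))))ᶜ)).Connected := by
  obtain ⟨v0, hv0⟩ := exists_notMem_of_card (Sum.inl : Fin (2 * (n + 1)) → _)
    Sum.inl_injective S (by simpa using hS)
  obtain ⟨j0, hj0⟩ := exists_notMem_of_card (Sum.inr : Fin (2 * (n + 1)) → _)
    Sum.inr_injective S (by simpa using hS)
  rw [SimpleGraph.connected_iff_exists_forall_reachable]
  refine ⟨⟨Sum.inl v0, fun h => hv0 h⟩, ?_⟩
  set T := ((↑S : Set (Fin (2 * (n + 1)) ⊕ Fin (2 * (n + 1))))ᶜ) with hT
  have hv0T : (Sum.inl v0 : Fin (2 * (n + 1)) ⊕ Fin (2 * (n + 1))) ∈ T := fun h => hv0 h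
  have hj0T : (Sum.inr j0 : Fin (2 * (n + 1)) ⊕ Fin (2 * (n + 1))) ∈ T := fun h => hj0 h
  rintro ⟨a, ha⟩
  rcases a with v | j
  · exact (reach_step _ T hv0T hj0T (IG_adj (Finset.mem_univ (v0, j0)))).trans
      (reach_step _ T ha hj0T (IG_adj (Finset.mem_univ (v, j0)))).symm
  · exact reach_step _ T hv0T ha (IG_adj (Finset.mem_univ (v0, j)))

lemma del_rank (hn : 1 ≤ n) (a : Fin (2 * (n + 1)) → Fin n → ℝ) :
    Module.finrank ℝ (Submodule.span ℝ ((fun e => row a e) '' ((Finset.univ \ del n :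
      Finset (Fin (2 * (n + 1)) × Fin (2 * (n + 1)))) :
        Set (Fin (2 * (n + 1)) × Fin (2 * (n + 1)))))) + (n + 1) <
      (n + 1) * (2 * (n + 1)) + 2 * (n + 1) := by
  classical
  set v0 : Fin (2 * (n + 1)) := ⟨0, by omega⟩ with hv0
  set v1 : Fin (2 * (n + 1)) := ⟨1, by omega⟩ with hv1
  set J : Finset (Fin (2 * (n + 1)) × Fin (2 * (n + 1))) := Finset.univ \ del n with hJ
  set Y : Finset (Fin (2 * (n + 1))) := {v0} with hY
  have hne : Y ≠ Yᶜ := by
    intro h
    have h1 : v0 ∈ Yᶜ := by rw [← h]; simp [hY]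
    simp [hY] at h1
  have h := parts_upper a J {Y, Yᶜ} (by
    intro Z hZ
    rw [Finset.mem_insert, Finset.mem_singleton] at hZ
    rcases hZ with rfl | rfl
    · exact ⟨v0, by simp [hY]⟩
    · refine ⟨v1, ?_⟩
      rw [Finset.mem_compl, hY, Finset.mem_singleton]
      intro h
      have := congrArg Fin.val h
      simp [hv0, hv1] at this) (by
    intro A hA B hB hAB
    simp only [Finset.coe_insert, Finset.coe_singleton, Set.mem_insert_iff,
      Set.mem_singleton_iff] at hA hB
    rcases hA with rfl | rfl <;> rcases hB with rfl | rfl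
    · exact absurd rfl hAB
    · exact disjoint_compl_right
    · exact disjoint_compl_left
    · exact absurd rfl hAB)
  have hsup : ({Y, Yᶜ} : Finset (Finset (Fin (2 * (n + 1))))).sup id = Finset.univ := by
    rw [Finset.sup_insert, Finset.sup_singleton]
    exact sup_compl_eq_top
  rw [hsup, Finset.sum_pair hne, Finset.card_pair hne, W_univ, Finset.card_univ, Fintype.card_fin,
    Fintype.card_fin] at h
  have h1 : (NX J Y).card ≤ n := by
    have hsub : NX J Y ⊆ (Finset.univ.filter (fun j : Fin (2 * (n + 1)) => j.val ≤ n + 1))ᶜ := by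
      intro j hj
      obtain ⟨v, hv, hvJ⟩ := mem_NX.1 hj
      rw [hY, Finset.mem_singleton] at hv
      subst hv
      rw [Finset.mem_compl, Finset.mem_filter]
      rintro ⟨_, hj'⟩
      apply (Finset.mem_sdiff.1 hvJ).2
      rw [del, Finset.mem_map]
      exact ⟨j, by simpa using hj', rfl⟩
    have h2 := Finset.card_le_card hsub
    rw [Finset.card_compl, card_filter_le _ _ (by omega), Fintype.card_fin] at h2
    omega
  have h2 : (NX J Yᶜ).card ≤ 2 * (n + 1) := by
    have := Finset.card_le_univ (NX J Yᶜ)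
    rwa [Fintype.card_fin] at this
  omega

end Deletions

/-! ### the connectivity -/

section Blowup

variable (m : ℕ)

/-- the incidences: every edge of `K_{m,m}` is a face through `m` copies of both of its ends -/
def blow : Finset (((Fin m ⊕ Fin m) × Fin m) × (Fin m × Fin m)) :=
  Finset.univ.filter (fun e => e.1.1 = Sum.inl e.2.1 ∨ e.1.1 = Sum.inr e.2.2)

lemma mem_blow_inl (a b t : Fin m) : ((Sum.inl a, t), (a, b)) ∈ blow m := by simp [blow]

lemma mem_blow_inr (a b t : Fin m) : ((Sum.inr b, t), (a, b)) ∈ blow m := by simp [blow]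

lemma blow_conn (S : Finset (((Fin m ⊕ Fin m) × Fin m) ⊕ (Fin m × Fin m))) (hS : S.card < m) :
    ((IG (blow m)).induce ((↑S : Set (((Fin m ⊕ Fin m) × Fin m) ⊕ (Fin m × Fin m)))ᶜ)).Connected := by
  have hp : ∀ p : Fin m ⊕ Fin m, ∃ t : Fin m,
      (Sum.inl (p, t) : ((Fin m ⊕ Fin m) × Fin m) ⊕ (Fin m × Fin m)) ∉ S := fun p =>
    exists_notMem_of_card (fun t : Fin m => (Sum.inl (p, t) : _ ⊕ (Fin m × Fin m)))
      (fun s t h => (Prod.mk.inj (Sum.inl_injective h)).2) S (by simpa using hS)
  have hrow : ∃ a0 : Fin m, ∀ b : Fin m,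
      (Sum.inr (a0, b) : ((Fin m ⊕ Fin m) × Fin m) ⊕ (Fin m × Fin m)) ∉ S := by
    by_contra hall
    push Not at hall
    choose b hb using hall
    obtain ⟨x, hx⟩ := exists_notMem_of_card
      (fun x : Fin m => (Sum.inr (x, b x) : ((Fin m ⊕ Fin m) × Fin m) ⊕ _))
      (fun s t h => (Prod.mk.inj (Sum.inr_injective h)).1) S (by simpa using hS)
    exact hx (hb x)
  have hb : ∀ a : Fin m, ∃ b : Fin m,
      (Sum.inr (a, b) : ((Fin m ⊕ Fin m) × Fin m) ⊕ (Fin m × Fin m)) ∉ S := fun a =>
    exists_notMem_of_card (fun b : Fin m => (Sum.inr (a, b) : ((Fin m ⊕ Fin m) × Fin m) ⊕ _))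
      (fun s t h => (Prod.mk.inj (Sum.inr_injective h)).2) S (by simpa using hS)
  obtain ⟨a0, ha0⟩ := hrow
  obtain ⟨t0, ht0⟩ := hp (Sum.inl a0)
  rw [SimpleGraph.connected_iff_exists_forall_reachable]
  refine ⟨⟨Sum.inl (Sum.inl a0, t0), fun h => ht0 h⟩, ?_⟩
  set T := ((↑S : Set (((Fin m ⊕ Fin m) × Fin m) ⊕ (Fin m × Fin m)))ᶜ) with hT
  have r1 : ∀ b : Fin m, ((IG (blow m)).induce T).Reachable
      ⟨Sum.inl (Sum.inl a0, t0), fun h => ht0 h⟩ ⟨Sum.inr (a0, b), fun h => ha0 b h⟩ := fun b =>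
    reach_step _ _ _ _ (IG_adj (mem_blow_inl m a0 b t0))
  have r2 : ∀ (b t : Fin m) (h : Sum.inl (Sum.inr b, t) ∈ T), ((IG (blow m)).induce T).Reachable
      ⟨Sum.inl (Sum.inl a0, t0), fun h => ht0 h⟩ ⟨Sum.inl (Sum.inr b, t), h⟩ := fun b t h =>
    (r1 b).trans (reach_step _ _ h _ (IG_adj (mem_blow_inr m a0 b t))).symm
  have r3 : ∀ (a b : Fin m) (h : Sum.inr (a, b) ∈ T), ((IG (blow m)).induce T).Reachable
      ⟨Sum.inl (Sum.inl a0, t0), fun h => ht0 h⟩ ⟨Sum.inr (a, b), h⟩ := by
    intro a b h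
    obtain ⟨t, ht⟩ := hp (Sum.inr b)
    exact (r2 b t (fun h' => ht h')).trans (reach_step _ _ _ h (IG_adj (mem_blow_inr m a b t)))
  rintro ⟨y, hy⟩
  rcases y with ⟨p, t⟩ | ⟨a, b⟩
  · rcases p with a | b
    · obtain ⟨b1, hb1⟩ := hb a
      exact (r3 a b1 (fun h' => hb1 h')).trans
        (reach_step _ _ hy _ (IG_adj (mem_blow_inl m a b1 t))).symm
    · exact r2 b t hy
  · exact r3 a b hy

lemma blow_rank {κ : Type} [DecidableEq κ] [Fintype κ] (hm : 0 < m) (a : Fin m × Fin m → κ → ℝ) :
    Module.finrank ℝ (Submodule.span ℝ ((fun e => row a e) ''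
      (blow m : Set (((Fin m ⊕ Fin m) × Fin m) × (Fin m × Fin m))))) +
      (Fintype.card κ + 1) * (2 * m) ≤ (Fintype.card κ + 1) * (2 * m * m) + 2 * m * m := by
  classical
  have : Nonempty (Fin m) := ⟨⟨0, hm⟩⟩
  obtain ⟨t0⟩ := this
  set g : Fin m ⊕ Fin m → Finset ((Fin m ⊕ Fin m) × Fin m) :=
    fun p => Finset.univ.filter (fun v => v.1 = p) with hg
  have hgmem : ∀ p v, v ∈ g p ↔ v.1 = p := by
    intro p v
    simp [hg]
  have hginj : Function.Injective g := by
    intro p q h
    have h1 : (p, t0) ∈ g q := by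
      rw [← h, hgmem]
    exact (hgmem _ _).1 h1
  set P := Finset.univ.map ⟨g, hginj⟩ with hP
  have h := parts_upper a (blow m) P (by
    intro Y hY
    simp only [hP, Finset.mem_map, Finset.mem_univ, true_and, Function.Embedding.coeFn_mk] at hY
    obtain ⟨p, rfl⟩ := hY
    exact ⟨(p, t0), (hgmem _ _).2 rfl⟩) (by
    intro A hA B hB hAB
    simp only [hP, Finset.coe_map, Function.Embedding.coeFn_mk, Finset.coe_univ, Set.image_univ,
      Set.mem_range] at hA hB
    obtain ⟨p, rfl⟩ := hA
    obtain ⟨q, rfl⟩ := hB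
    rw [Function.onFun, id, id, Finset.disjoint_left]
    intro v hv1 hv2
    apply hAB
    rw [← (hgmem _ _).1 hv1, ← (hgmem _ _).1 hv2])
  have hsup : P.sup id = Finset.univ := by
    rw [Finset.eq_univ_iff_forall]
    intro v
    have h1 : g v.1 ≤ P.sup id := Finset.le_sup (f := id) (by
      simp only [hP, Finset.mem_map, Finset.mem_univ, true_and, Function.Embedding.coeFn_mk]
      exact ⟨v.1, rfl⟩)
    exact h1 ((hgmem _ _).2 rfl)
  have hcardP : P.card = 2 * m := by
    rw [hP, Finset.card_map, Finset.card_univ, Fintype.card_sum, Fintype.card_fin]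
    ring
  have hsum : ∑ Y ∈ P, (NX (blow m) Y).card ≤ 2 * m * m := by
    rw [← hcardP, ← smul_eq_mul]
    apply Finset.sum_le_card_nsmul
    intro Y hY
    simp only [hP, Finset.mem_map, Finset.mem_univ, true_and, Function.Embedding.coeFn_mk] at hY
    obtain ⟨p, rfl⟩ := hY
    rcases p with x | y
    · have hsub : NX (blow m) (g (Sum.inl x)) ⊆
          (Finset.univ : Finset (Fin m)).image (fun b => (x, b)) := by
        intro j hj
        obtain ⟨v, hv, hI⟩ := mem_NX.1 hj
        rw [hgmem] at hv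
        simp only [blow, Finset.mem_filter, Finset.mem_univ, true_and, hv] at hI
        rw [Finset.mem_image]
        refine ⟨j.2, Finset.mem_univ _, ?_⟩
        rcases hI with hI | hI
        · rw [Sum.inl_injective hI]
        · cases hI
      refine (Finset.card_le_card hsub).trans (Finset.card_image_le.trans ?_)
      rw [Finset.card_univ, Fintype.card_fin]
    · have hsub : NX (blow m) (g (Sum.inr y)) ⊆
          (Finset.univ : Finset (Fin m)).image (fun b => (b, y)) := by
        intro j hj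
        obtain ⟨v, hv, hI⟩ := mem_NX.1 hj
        rw [hgmem] at hv
        simp only [blow, Finset.mem_filter, Finset.mem_univ, true_and, hv] at hI
        rw [Finset.mem_image]
        refine ⟨j.1, Finset.mem_univ _, ?_⟩
        rcases hI with hI | hI
        · cases hI
        · rw [Sum.inr_injective hI]
      refine (Finset.card_le_card hsub).trans (Finset.card_image_le.trans ?_)
      rw [Finset.card_univ, Fintype.card_fin]
  have hcardV : Fintype.card ((Fin m ⊕ Fin m) × Fin m) = 2 * m * m := by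
    rw [Fintype.card_prod, Fintype.card_sum, Fintype.card_fin]
    ring
  rw [hsup, hcardP, W_univ, Finset.card_univ, hcardV] at h
  omega

end Blowup

end Pool.Agent.Y332.PM
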